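import Mathlib
import Pool.Agent.helper5.PR.SpecM

/-!
# Project pr: (MP_a2a22c_al), module M-WD
-/

namespace Pool.Agent.PR

open Matrix

/-- lower elementary -/
def M_WD_L (s : ℤ) : SL2 := ⟨!![1, 0; s, 1], by rw [Matrix.det_fin_two]; simp⟩

/-- upper elementary -/
def M_WD_U (s : ℤ) : SL2 := ⟨!![1, s; 0, 1], by rw [Matrix.det_fin_two]; simp⟩

/-- the diagonal matrix `diag(-1, 1, -1)` -/
def M_WD_D : SL3 := ⟨!![-1, 0, 0; 0, 1, 0; 0, 0, -1], by rw [Matrix.det_fin_three]; simp⟩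

theorem M_WD_mul (g h : SL2) : cn12 (g * h) = cn12 g * cn12 h := by
  ext i j
  fin_cases i <;> fin_cases j <;>
    simp [cn12, Matrix.mul_apply, Fin.sum_univ_succ]

theorem M_WD_one : cn12 1 = 1 := by
  ext i j
  fin_cases i <;> fin_cases j <;> simp [cn12]

theorem M_WD_Ladd (s t : ℤ) : M_WD_L (s + t) = M_WD_L s * M_WD_L t := by
  ext i j
  fin_cases i <;> fin_cases j <;>
    simp [M_WD_L, Matrix.mul_apply, Fin.sum_univ_succ]

theorem M_WD_Uadd (s t : ℤ) : M_WD_U (s + t) = M_WD_U s * M_WD_U t := by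
  ext i j
  fin_cases i <;> fin_cases j <;>
    simp [M_WD_U, Matrix.mul_apply, Fin.sum_univ_succ, add_comm]

theorem M_WD_L0 : M_WD_L 0 = 1 := by
  ext i j
  fin_cases i <;> fin_cases j <;> simp [M_WD_L]

theorem M_WD_U0 : M_WD_U 0 = 1 := by
  ext i j
  fin_cases i <;> fin_cases j <;> simp [M_WD_U]

theorem M_WD_mem (N : Subgroup SL3) (f : ℤ → SL2) (f0 : f 0 = 1)
    (hf : ∀ s t, f (s + t) = f s * f t) (m : ℤ) (hm : cn12 (f m) ∈ N) (t : ℤ) :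
    cn12 (f (m * t)) ∈ N := by
  have hneg : cn12 (f (-m)) ∈ N := by
    have h1 : cn12 (f (-m)) * cn12 (f m) = 1 := by
      rw [← M_WD_mul, ← hf, neg_add_cancel, f0, M_WD_one]
    rw [eq_inv_of_mul_eq_one_left h1]
    exact N.inv_mem hm
  induction t using Int.induction_on with
  | zero => rw [mul_zero, f0, M_WD_one]; exact N.one_mem
  | succ t ih =>
    rw [mul_add, mul_one, hf, M_WD_mul]
    exact N.mul_mem ih hm
  | pred t ih =>
    rw [mul_sub, mul_one, sub_eq_add_neg, hf, M_WD_mul]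
    exact N.mul_mem ih hneg

theorem M_WD_Lmem (m : ℤ) (N : Subgroup SL3) (hE : Elem m N) (t : ℤ) :
    cn12 (M_WD_L (m * t)) ∈ N := by
  refine M_WD_mem N M_WD_L M_WD_L0 M_WD_Ladd m (hE.2 _ 1 0 (by decide) ?_) t
  ext i j
  fin_cases i <;> fin_cases j <;>
    simp [cn12, M_WD_L, Matrix.single, Matrix.add_apply]

theorem M_WD_Umem (m : ℤ) (N : Subgroup SL3) (hE : Elem m N) (t : ℤ) :
    cn12 (M_WD_U (m * t)) ∈ N := by
  refine M_WD_mem N M_WD_U M_WD_U0 M_WD_Uadd m (hE.2 _ 0 1 (by decide) ?_) t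
  ext i j
  fin_cases i <;> fin_cases j <;>
    simp [cn12, M_WD_U, Matrix.single, Matrix.add_apply]

theorem M_WD_ent (g h : SL2) (i j : Fin 2) :
    (g * h).1 i j = g.1 i 0 * h.1 0 j + g.1 i 1 * h.1 1 j := by
  change ((g : Matrix (Fin 2) (Fin 2) ℤ) * (h : Matrix (Fin 2) (Fin 2) ℤ)) i j = _
  rw [Matrix.mul_apply, Fin.sum_univ_two]

theorem M_WD_ext (g h : SL2) (h1 : g.1 0 0 = h.1 0 0) (h2 : g.1 0 1 = h.1 0 1)
    (h3 : g.1 1 0 = h.1 1 0) (h4 : g.1 1 1 = h.1 1 1) : g = h := by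
  ext i j
  fin_cases i <;> fin_cases j
  exacts [h1, h2, h3, h4]

theorem M_WD_L00 (s : ℤ) : (M_WD_L s).1 0 0 = 1 := rfl
theorem M_WD_L01 (s : ℤ) : (M_WD_L s).1 0 1 = 0 := rfl
theorem M_WD_L10 (s : ℤ) : (M_WD_L s).1 1 0 = s := rfl
theorem M_WD_L11 (s : ℤ) : (M_WD_L s).1 1 1 = 1 := rfl
theorem M_WD_U00 (s : ℤ) : (M_WD_U s).1 0 0 = 1 := rfl
theorem M_WD_U01 (s : ℤ) : (M_WD_U s).1 0 1 = s := rfl
theorem M_WD_U10 (s : ℤ) : (M_WD_U s).1 1 0 = 0 := rfl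
theorem M_WD_U11 (s : ℤ) : (M_WD_U s).1 1 1 = 1 := rfl

theorem M_WD_row (m : ℤ) (N : Subgroup SL3) [N.Normal] (hE : Elem m N) (g g' : SL2)
    (hg : G2 m g) (hg' : G2 m g') (h0 : g'.1 0 0 = g.1 0 0) (h1 : g'.1 0 1 = g.1 0 1) :
    QuotientGroup.mk' N (cn12 g') = QuotientGroup.mk' N (cn12 g) := by
  obtain ⟨u, hu⟩ := hg.2.2.1
  obtain ⟨v, hv⟩ := hg'.2.2.1
  have d1 := g.2
  have d2 := g'.2
  rw [Matrix.det_fin_two] at d1 d2
  rw [h0, h1] at d2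
  have e : g' = M_WD_L (m * (v * g.1 1 1 - u * g'.1 1 1)) * g := by
    have es : m * (v * g.1 1 1 - u * g'.1 1 1) = g'.1 1 0 * g.1 1 1 - g'.1 1 1 * g.1 1 0 := by
      rw [hu, hv]; ring
    rw [es]
    apply M_WD_ext
    · rw [M_WD_ent, M_WD_L00, M_WD_L01, h0]; ring
    · rw [M_WD_ent, M_WD_L00, M_WD_L01, h1]; ring
    · rw [M_WD_ent, M_WD_L10, M_WD_L11]
      linear_combination (g'.1 1 0) * (-d1) + (g.1 1 0) * d2
    · rw [M_WD_ent, M_WD_L10, M_WD_L11]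
      linear_combination (g'.1 1 1) * (-d1) + (g.1 1 1) * d2
  have hL := M_WD_Lmem m N hE (v * g.1 1 1 - u * g'.1 1 1)
  have h2 : QuotientGroup.mk' N (cn12 (M_WD_L (m * (v * g.1 1 1 - u * g'.1 1 1)))) = 1 :=
    (QuotientGroup.eq_one_iff _).2 hL
  have h3 : QuotientGroup.mk' N (cn12 g') =
      QuotientGroup.mk' N (cn12 (M_WD_L (m * (v * g.1 1 1 - u * g'.1 1 1)) * g)) := by
    rw [← e]
  rw [h3, M_WD_mul, map_mul, h2, one_mul]

theorem M_WD_neg (g : SL2) : ∃ h : SL2, h.1 0 0 = g.1 0 0 ∧ h.1 0 1 = -g.1 0 1 ∧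
    h.1 1 0 = -g.1 1 0 ∧ h.1 1 1 = g.1 1 1 ∧ cn12 h = M_WD_D * cn12 g * M_WD_D := by
  have hd := g.2
  rw [Matrix.det_fin_two] at hd
  refine ⟨⟨!![g.1 0 0, -g.1 0 1; -g.1 1 0, g.1 1 1], by
    rw [Matrix.det_fin_two]; simp; linarith⟩, rfl, rfl, rfl, rfl, ?_⟩
  ext i j
  fin_cases i <;> fin_cases j <;>
    simp [cn12, M_WD_D, Matrix.mul_apply, Fin.sum_univ_succ]

theorem M_WD_DD : M_WD_D * M_WD_D = 1 := by
  ext i j
  fin_cases i <;> fin_cases j <;>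
    simp [M_WD_D, Matrix.mul_apply, Fin.sum_univ_succ]

theorem M_WD (h : M_CEN_stmt) : M_WD_stmt := by
  intro m hm N _ hE g g' hg hg' hc
  have hz := (h m hm N hE g hg).1
  rw [Subgroup.mem_center_iff] at hz
  obtain ⟨g1, g2, g3, g4⟩ := id hg
  rcases hc with ⟨h0, h1⟩ | ⟨t, h0, h1⟩ | ⟨t, h0, h1⟩ | ⟨h0, h1⟩
  · exact M_WD_row m N hE g g' hg hg' h0 h1
  · have hG : G2 m (g * M_WD_U (m * t)) := by
      refine ⟨?_, ?_, ?_, ?_⟩
      · rw [M_WD_ent, M_WD_U00, M_WD_U10]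
        simpa using g1
      · rw [M_WD_ent, M_WD_U01, M_WD_U11]
        have : (m : ℤ) ∣ g.1 0 0 * (m * t) := ⟨g.1 0 0 * t, by ring⟩
        simpa using dvd_add this g2
      · rw [M_WD_ent, M_WD_U00, M_WD_U10]
        simpa using g3
      · rw [M_WD_ent, M_WD_U01, M_WD_U11]
        have : (m : ℤ) ∣ g.1 1 0 * (m * t) := ⟨g.1 1 0 * t, by ring⟩
        have h5 := dvd_add this g4
        have e5 : g.1 1 0 * (m * t) + g.1 1 1 * 1 - 1 = g.1 1 0 * (m * t) + (g.1 1 1 - 1) := by ring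
        rw [e5]; exact h5
    have e1 := M_WD_row m N hE (g * M_WD_U (m * t)) g' hG hg'
      (by rw [M_WD_ent, M_WD_U00, M_WD_U10, h0]; ring)
      (by rw [M_WD_ent, M_WD_U01, M_WD_U11, h1]; ring)
    rw [e1, M_WD_mul, map_mul]
    have h2 : QuotientGroup.mk' N (cn12 (M_WD_U (m * t))) = 1 :=
      (QuotientGroup.eq_one_iff _).2 (M_WD_Umem m N hE t)
    rw [h2, mul_one]
  · have hG : G2 m (M_WD_L (-t) * g * M_WD_L t) := by
      refine ⟨?_, ?_, ?_, ?_⟩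
      · simp only [M_WD_ent, M_WD_L00, M_WD_L01, M_WD_L10, M_WD_L11]
        have e5 : (1 * g.1 0 0 + 0 * g.1 1 0) * 1 + (1 * g.1 0 1 + 0 * g.1 1 1) * t - 1 =
          (g.1 0 0 - 1) + g.1 0 1 * t := by ring
        rw [e5]; exact dvd_add g1 (Dvd.dvd.mul_right g2 t)
      · simp only [M_WD_ent, M_WD_L00, M_WD_L01, M_WD_L10, M_WD_L11]
        have e5 : (1 * g.1 0 0 + 0 * g.1 1 0) * 0 + (1 * g.1 0 1 + 0 * g.1 1 1) * 1 =
          g.1 0 1 := by ring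
        rw [e5]; exact g2
      · simp only [M_WD_ent, M_WD_L00, M_WD_L01, M_WD_L10, M_WD_L11]
        have e5 : (-t * g.1 0 0 + 1 * g.1 1 0) * 1 + (-t * g.1 0 1 + 1 * g.1 1 1) * t =
          -t * (g.1 0 0 - 1) + g.1 1 0 + (-t * t) * g.1 0 1 + t * (g.1 1 1 - 1) := by ring
        rw [e5]
        exact dvd_add (dvd_add (dvd_add (Dvd.dvd.mul_left g1 _) g3) (Dvd.dvd.mul_left g2 _))
          (Dvd.dvd.mul_left g4 _)
      · simp only [M_WD_ent, M_WD_L00, M_WD_L01, M_WD_L10, M_WD_L11]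
        have e5 : (-t * g.1 0 0 + 1 * g.1 1 0) * 0 + (-t * g.1 0 1 + 1 * g.1 1 1) * 1 - 1 =
          -t * g.1 0 1 + (g.1 1 1 - 1) := by ring
        rw [e5]; exact dvd_add (Dvd.dvd.mul_left g2 _) g4
    have e1 := M_WD_row m N hE (M_WD_L (-t) * g * M_WD_L t) g' hG hg'
      (by rw [h0]; simp only [M_WD_ent, M_WD_L00, M_WD_L01, M_WD_L10, M_WD_L11]; ring)
      (by rw [h1]; simp only [M_WD_ent, M_WD_L00, M_WD_L01, M_WD_L10, M_WD_L11]; ring)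
    have h2 : M_WD_L (-t) * M_WD_L t = 1 := by rw [← M_WD_Ladd, neg_add_cancel, M_WD_L0]
    have h3 : QuotientGroup.mk' N (cn12 (M_WD_L (-t))) * QuotientGroup.mk' N (cn12 (M_WD_L t)) =
        1 := by rw [← map_mul, ← M_WD_mul, h2, M_WD_one, map_one]
    rw [e1, M_WD_mul, M_WD_mul, map_mul, map_mul, hz, mul_assoc, h3, mul_one]
  · obtain ⟨k, k0, k1, k2, k3, hk⟩ := M_WD_neg g
    have hG : G2 m k := ⟨by rw [k0]; exact g1, by rw [k1]; exact (dvd_neg).2 g2,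
      by rw [k2]; exact (dvd_neg).2 g3, by rw [k3]; exact g4⟩
    have e1 := M_WD_row m N hE k g' hG hg' (by rw [h0, k0]) (by rw [h1, k1])
    have h3 : QuotientGroup.mk' N M_WD_D * QuotientGroup.mk' N M_WD_D = 1 := by
      rw [← map_mul, M_WD_DD, map_one]
    rw [e1, hk, map_mul, map_mul, hz, mul_assoc, h3, mul_one]

end Pool.Agent.PR
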